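import Pool.Agent.W623.SecH.Stm2
import Pool.Agent.W623.SecF.Dec

/-!
# Henselian valuation rings extend uniquely
-/

set_option autoImplicit false

open Polynomial

namespace Pool.Agent.W348.SH

open Pool.Agent.W623.SecH Pool.Agent.W623.SecC Pool.Agent.W623.SecF

universe u w

section vals

variable {kb : Type w} [Field kb] (V : ValuationSubring kb)

theorem sum_lt (s : Multiset kb) (h : ∀ x ∈ s, V.valuation x < 1) : V.valuation s.sum < 1 := by
  induction s using Multiset.induction_on with
  | empty => simp
  | cons a s ih =>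
    rw [Multiset.sum_cons]
    refine (V.valuation.map_add _ _).trans_lt (max_lt (h a (Multiset.mem_cons_self a s)) ?_)
    exact ih fun x hx => h x (Multiset.mem_cons_of_mem hx)

theorem prod_mem (s : Multiset kb) (c : kb) (hc : V.valuation c ≤ 1)
    (h : ∀ x ∈ s, V.valuation x ≤ 1) :
    V.valuation ((s.map (fun x => X - C x)).prod.eval c) ≤ 1 ∧
      V.valuation ((derivative (s.map (fun x => X - C x)).prod).eval c) ≤ 1 := by
  induction s using Multiset.induction_on with
  | empty => simp
  | cons a s ih =>
    obtain ⟨h1, h2⟩ := ih fun x hx => h x (Multiset.mem_cons_of_mem hx)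
    have ha : V.valuation (c - a) ≤ 1 :=
      (V.valuation.map_sub _ _).trans (max_le hc (h a (Multiset.mem_cons_self a s)))
    rw [Multiset.map_cons, Multiset.prod_cons]
    constructor
    · rw [eval_mul, map_mul]
      refine mul_le_one' ?_ h1
      simpa using ha
    · rw [derivative_mul, eval_add, eval_mul, eval_mul]
      refine (V.valuation.map_add _ _).trans (max_le ?_ ?_)
      · simpa using h1
      · rw [map_mul]
        refine mul_le_one' ?_ h2
        simpa using ha

theorem prod_unit (s : Multiset kb) (c : kb) (hc : V.valuation c = 1)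
    (h : ∀ x ∈ s, V.valuation x < 1) :
    V.valuation ((s.map (fun x => X - C x)).prod.eval c) = 1 := by
  induction s using Multiset.induction_on with
  | empty => simp
  | cons a s ih =>
    have h1 := ih fun x hx => h x (Multiset.mem_cons_of_mem hx)
    have ha := h a (Multiset.mem_cons_self a s)
    rw [Multiset.map_cons, Multiset.prod_cons, eval_mul, map_mul, h1, mul_one, eval_sub, eval_X,
      eval_C]
    rw [← hc] at ha ⊢
    exact V.valuation.map_sub_eq_of_lt_left ha

theorem finprod_le {ι : Type*} (s : Finset ι) (f : ι → kb) (h : ∀ i ∈ s, V.valuation (f i) ≤ 1) :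
    V.valuation (∏ i ∈ s, f i) ≤ 1 := by
  rw [map_prod]
  exact Finset.prod_le_one' h

theorem finprod_lt {ι : Type*} [DecidableEq ι] (s : Finset ι) (f : ι → kb)
    (h : ∀ i ∈ s, V.valuation (f i) ≤ 1) (j : ι) (hj : j ∈ s) (hj' : V.valuation (f j) < 1) :
    V.valuation (∏ i ∈ s, f i) < 1 := by
  rw [← Finset.mul_prod_erase s f hj, map_mul]
  refine lt_of_le_of_lt (mul_le_of_le_one_right' ?_) hj'
  exact finprod_le V _ f fun i hi => h i (Finset.mem_of_mem_erase hi)

end vals

section

variable {k : Type u} {kb : Type w} [Field k] [CharZero k] [Field kb] [Algebra k kb]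
  [IsAlgClosure k kb] (A : ValuationSubring k) [HenselianLocalRing A] (V : ValuationSubring kb)
  (hV : ∀ a : A, algebraMap A kb a ∈ V)
  (hm : ∀ a ∈ IsLocalRing.maximalIdeal A, algebraMap A kb a ∈ V.nonunits)

include hV in
theorem val_le (x : kb) (hx : IsIntegral A x) : V.valuation x ≤ 1 := by
  rw [V.valuation_le_one_iff]
  exact int_mem V hV ⟨x, hx⟩

include hV hm in
/-- an integral unit all of whose other conjugates are nonunits lies in the base field -/
theorem in_base (u : kb) (hu : IsIntegral A u) (huV : V.valuation u = 1)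
    (hconj : ∀ w ∈ (minpoly k u).aroots kb, w = u ∨ V.valuation w < 1) :
    u ∈ (algebraMap k kb).range := by
  classical
  have hkb : IsAlgClosed kb := IsAlgClosure.isAlgClosed k
  have hinj : Function.Injective (algebraMap A kb) := by
    rw [IsScalarTower.algebraMap_eq A k kb]
    exact (algebraMap k kb).injective.comp (IsFractionRing.injective A k)
  have huk : IsIntegral k u := hu.tower_top
  have hmin : minpoly k u = (minpoly A u).map (algebraMap A k) :=
    minpoly.isIntegrallyClosed_eq_field_fractions' k hu
  have hmon : (minpoly A u).Monic := minpoly.monic hu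
  have hmap : (minpoly k u).map (algebraMap k kb) = (minpoly A u).map (algebraMap A kb) := by
    rw [hmin, map_map, ← IsScalarTower.algebraMap_eq]
  set s : Multiset kb := (minpoly k u).aroots kb with hs
  have hsep : ((minpoly k u).map (algebraMap k kb)).Separable :=
    ((minpoly.irreducible huk).separable).map
  have hnod : s.Nodup := nodup_roots hsep
  have hus : u ∈ s := by
    rw [hs, mem_aroots]
    exact ⟨minpoly.ne_zero huk, minpoly.aeval k u⟩
  obtain ⟨R0, hR0⟩ := Multiset.exists_cons_of_mem hus
  have hR0lt : ∀ w ∈ R0, V.valuation w < 1 := by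
    intro w hw
    rcases hconj w (by rw [hR0]; exact Multiset.mem_cons_of_mem hw) with h | h
    · exfalso
      rw [hR0, Multiset.nodup_cons] at hnod
      rw [h] at hw
      exact hnod.1 hw
    · exact h
  have hprod : (minpoly A u).map (algebraMap A kb) =
      (X - C u) * (R0.map (fun x => X - C x)).prod := by
    have h1 : (minpoly A u).map (algebraMap A kb) =
        ((((minpoly A u).map (algebraMap A kb)).roots).map (fun x => X - C x)).prod :=
      (IsAlgClosed.splits _).eq_prod_roots_of_monic (hmon.map _)
    have h2 : ((minpoly A u).map (algebraMap A kb)).roots = u ::ₘ R0 := by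
      rw [← hmap, ← hR0, hs]
    rw [h2, Multiset.map_cons, Multiset.prod_cons] at h1
    exact h1
  -- the approximate root
  set c : A := -(minpoly A u).nextCoeff with hc
  have hcu : algebraMap A kb c - u = R0.sum := by
    have h1 := nextCoeff_map hinj (minpoly A u)
    have h2 : ((minpoly A u).map (algebraMap A kb)).nextCoeff = -(u + R0.sum) := by
      rw [hprod]
      have h3 := multiset_prod_X_sub_C_nextCoeff (u ::ₘ R0)
      rw [Multiset.map_cons, Multiset.prod_cons, Multiset.sum_cons] at h3
      exact h3
    rw [h2] at h1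
    rw [hc, map_neg, ← h1]
    ring
  have hcu1 : V.valuation (algebraMap A kb c - u) < 1 := by
    rw [hcu]
    exact sum_lt V R0 hR0lt
  have hcv : V.valuation (algebraMap A kb c) = 1 := by
    have e : algebraMap A kb c = u + (algebraMap A kb c - u) := by ring
    rw [e]
    rw [← huV] at hcu1 ⊢
    exact V.valuation.map_add_eq_of_lt_left hcu1
  have hunit := prod_unit V R0 _ hcv hR0lt
  have hder := (prod_mem V R0 _ hcv.le (fun x hx => (hR0lt x hx).le)).2
  have he1 : algebraMap A kb ((minpoly A u).eval c) = (algebraMap A kb c - u) *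
      ((R0.map (fun x => X - C x)).prod.eval (algebraMap A kb c)) := by
    rw [← eval₂_at_apply, ← eval_map, hprod, eval_mul, eval_sub, eval_X, eval_C]
  have he2 : algebraMap A kb ((derivative (minpoly A u)).eval c) =
      (R0.map (fun x => X - C x)).prod.eval (algebraMap A kb c) + (algebraMap A kb c - u) *
      ((derivative (R0.map (fun x => X - C x)).prod).eval (algebraMap A kb c)) := by
    rw [← eval₂_at_apply, ← eval_map, ← derivative_map, hprod, derivative_mul, eval_add, eval_mul,
      eval_mul]
    simp
  have hr1 : (minpoly A u).eval c ∈ IsLocalRing.maximalIdeal A := by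
    rw [← nonunit_iff V hV hm, ValuationSubring.mem_nonunits_iff, he1, map_mul, hunit, mul_one]
    exact hcu1
  have hr2 : IsUnit ((derivative (minpoly A u)).eval c) := by
    by_contra hnot
    have h1 := hm _ ((IsLocalRing.mem_maximalIdeal _).2 hnot)
    rw [ValuationSubring.mem_nonunits_iff, he2] at h1
    have h2 : V.valuation ((algebraMap A kb c - u) *
      ((derivative (R0.map (fun x => X - C x)).prod).eval (algebraMap A kb c))) < 1 := by
      rw [map_mul]
      exact lt_of_le_of_lt (mul_le_of_le_one_right' hder) hcu1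
    rw [← hunit] at h2
    rw [V.valuation.map_add_eq_of_lt_left h2, hunit] at h1
    exact lt_irrefl _ h1
  obtain ⟨a, ha, -⟩ := HenselianLocalRing.is_henselian (minpoly A u) hmon c hr1 hr2
  have hroot : (minpoly k u).IsRoot (algebraMap A k a) := by
    rw [hmin]
    exact ha.map
  exact minpoly.degree_eq_one_iff.1
    (degree_eq_one_of_irreducible_of_root (minpoly.irreducible huk) hroot)

include hV hm in
/-- conjugates of integral units are units -/
theorem conj_unit (τ : kb ≃ₐ[k] kb) (x : kb) (hx : IsIntegral A x) (hx1 : V.valuation x = 1) :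
    V.valuation (τ x) = 1 := by
  classical
  have hkb : IsAlgClosed kb := IsAlgClosure.isAlgClosed k
  have hnor : Normal k kb := IsAlgClosure.normal _ _
  have hxk : IsIntegral k x := hx.tower_top
  set R : Finset kb := ((minpoly k x).aroots kb).toFinset with hR
  have hRm : ∀ y, y ∈ R ↔ aeval y (minpoly k x) = 0 := by
    intro y
    rw [hR, Multiset.mem_toFinset, mem_aroots]
    exact ⟨fun h => h.2, fun h => ⟨minpoly.ne_zero hxk, h⟩⟩
  have hRτ : ∀ (σ : kb ≃ₐ[k] kb), ∀ y ∈ R, σ y ∈ R := by
    intro σ y hy
    rw [hRm] at hy ⊢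
    have : aeval (σ y) (minpoly k x) = σ (aeval y (minpoly k x)) :=
      aeval_algHom_apply (σ : kb →ₐ[k] kb) y (minpoly k x)
    rw [this, hy, map_zero]
  have hmin : minpoly k x = (minpoly A x).map (algebraMap A k) :=
    minpoly.isIntegrallyClosed_eq_field_fractions' k hx
  have hRint : ∀ y ∈ R, IsIntegral A y := by
    intro y hy
    rw [hRm, hmin, aeval_map_algebraMap] at hy
    exact ⟨minpoly A x, minpoly.monic hx, hy⟩
  have hRle : ∀ y ∈ R, V.valuation y ≤ 1 := fun y hy => val_le A V hV y (hRint y hy)
  set U : Finset kb := R.filter (fun y => V.valuation y = 1) with hU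
  have hUR : U ⊆ R := Finset.filter_subset _ _
  set u : kb := ∏ y ∈ U, y with hu
  have huint : IsIntegral A u := IsIntegral.prod _ fun y hy => hRint y (hUR hy)
  have hu1 : V.valuation u = 1 := by
    rw [hu, map_prod]
    exact Finset.prod_eq_one fun y hy => (Finset.mem_filter.1 hy).2
  have hτu : ∀ σ : kb ≃ₐ[k] kb, σ u = ∏ y ∈ U.image σ, y := by
    intro σ
    rw [Finset.prod_image (fun a _ b _ h => σ.injective h), hu, map_prod]
  have hcase : ∀ σ : kb ≃ₐ[k] kb, U.image σ = U ∨ V.valuation (σ u) < 1 := by
    intro σ
    by_cases h : U.image σ = U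
    · exact Or.inl h
    · right
      have hns : ¬ U.image σ ⊆ U := by
        intro hsub
        exact h (Finset.eq_of_subset_of_card_le hsub
          (by rw [Finset.card_image_of_injective _ σ.injective]))
      obtain ⟨w, hw, hwU⟩ := Finset.not_subset.1 hns
      have himR : ∀ y ∈ U.image σ, y ∈ R := by
        intro y hy
        obtain ⟨z, hz, rfl⟩ := Finset.mem_image.1 hy
        exact hRτ σ z (hUR hz)
      rw [hτu]
      refine finprod_lt V (U.image σ) (fun y => y) (fun y hy => hRle y (himR y hy)) w hw ?_
      refine lt_of_le_of_ne (hRle w (himR w hw)) fun h1 => hwU ?_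
      exact Finset.mem_filter.2 ⟨himR w hw, h1⟩
  have hbase : u ∈ (algebraMap k kb).range := by
    refine in_base A V hV hm u huint hu1 fun w hw => ?_
    have huk : IsIntegral k u := huint.tower_top
    have hcr : IsConjRoot k u w := (isConjRoot_iff_mem_minpoly_aroots huk).2 hw
    obtain ⟨σ, hσ⟩ := hcr.symm.exists_algEquiv
    rcases hcase σ with h | h
    · left
      rw [← hσ, hτu, h]
    · right
      rw [← hσ]
      exact h
  obtain ⟨a, ha⟩ := hbase
  have hfix : τ u = u := by rw [← ha]; exact τ.commutes a
  rcases hcase τ with h | h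
  · have hxU : x ∈ U := Finset.mem_filter.2 ⟨(hRm x).2 (minpoly.aeval k x), hx1⟩
    have h1 : τ x ∈ U := by
      rw [← h]
      exact Finset.mem_image_of_mem _ hxU
    exact (Finset.mem_filter.1 h1).2
  · rw [hfix, hu1] at h
    exact absurd h (lt_irrefl _)

end

theorem hens : Pool.Agent.W623.SecH.HENS.{u, w} := by
  intro k kb _ _ _ _ _ A _ V hV hm τ z
  have hV' : ∀ a : A, algebraMap A kb a ∈ V := fun a => hV a a.2
  have hm' : ∀ a ∈ IsLocalRing.maximalIdeal A, algebraMap A kb a ∈ V.nonunits := by
    intro a ha
    refine hm a ?_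
    exact (A.coe_mem_nonunits_iff (a := a)).2 ha
  have key : ∀ (σ : kb ≃ₐ[k] kb) (x : kb), x ∈ V → σ x ∈ V := by
    intro σ
    refine stab_mem (A := A) (k := k) V hV' hm' σ fun x hx => ?_
    by_contra hnot
    rw [ValuationSubring.mem_nonunits_iff] at hx hnot
    have h1 : V.valuation (x : kb) = 1 :=
      le_antisymm (val_le A V hV' x x.2) (not_lt.1 hnot)
    have h2 := conj_unit A V hV' hm' σ x x.2 h1
    rw [h2] at hx
    exact lt_irrefl _ hx
  constructor
  · intro h
    have := key τ.symm _ h
    rwa [AlgEquiv.symm_apply_apply] at this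
  · exact key τ z

end Pool.Agent.W348.SH
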